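import Mathlib
import Pool.Agent.U398.MV.Stm

set_option autoImplicit false

/-!
Package VC of project MV: cosine integrals of the mean square `Vp`.
-/

namespace Pool.Agent.U94.MV.VC

open MeasureTheory Filter Topology Set
open Pool.Agent.U398.MV

noncomputable section

/-- the coefficients of `Vp` -/
def ac (n : ℕ) : ℝ := (ArithmeticFunction.vonMangoldt n) ^ 2 / n

lemma ac_nonneg (n : ℕ) : 0 ≤ ac n := by
  unfold ac
  positivity

lemma ac_le (n : ℕ) : ac n ≤ n := by
  unfold ac
  rcases Nat.eq_zero_or_pos n with rfl | hn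
  · simp
  · have h1 : ArithmeticFunction.vonMangoldt n ≤ Real.log n :=
      ArithmeticFunction.vonMangoldt_le_log
    have h0 : 0 ≤ ArithmeticFunction.vonMangoldt n := ArithmeticFunction.vonMangoldt_nonneg
    have hn' : (1 : ℝ) ≤ n := by exact_mod_cast hn
    have h2 : Real.log n ≤ n := (Real.log_le_sub_one_of_pos (by linarith)).trans (by linarith)
    rw [div_le_iff₀ (by linarith)]
    nlinarith

/-- summable majorant -/
def bd (R : ℝ) (n : ℕ) : ℝ := Real.exp (4 * R + 4) * (1 / (n : ℝ) ^ 3)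

lemma summable_bd (R : ℝ) : Summable (bd R) :=
  (Real.summable_one_div_nat_pow.mpr (by norm_num)).mul_left _

lemma term_le {u R : ℝ} (hu : u ≤ R) (n : ℕ) :
    ac n * Real.exp (-(u - Real.log n) ^ 2) ≤ bd R n := by
  rcases Nat.eq_zero_or_pos n with rfl | hn
  · simp [ac, bd]
  · have hn' : (1 : ℝ) ≤ n := by exact_mod_cast hn
    have h0 : (0 : ℝ) < n := by linarith
    have h1 : -(u - Real.log n) ^ 2 ≤ (4 * R + 4) + (-4 * Real.log n) := by
      nlinarith [sq_nonneg (Real.log n - u - 2)]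
    have h3 : Real.exp (-4 * Real.log n) = ((n : ℝ) ^ 4)⁻¹ := by
      rw [show -4 * Real.log n = -(Real.log ((n : ℝ) ^ 4)) by
        rw [Real.log_pow]
        push_cast
        ring, Real.exp_neg, Real.exp_log (by positivity)]
    have h2 : Real.exp (-(u - Real.log n) ^ 2) ≤ Real.exp (4 * R + 4) * ((n : ℝ) ^ 4)⁻¹ := by
      refine (Real.exp_le_exp.2 h1).trans_eq ?_
      rw [Real.exp_add, h3]
    calc ac n * Real.exp (-(u - Real.log n) ^ 2)
        ≤ n * (Real.exp (4 * R + 4) * ((n : ℝ) ^ 4)⁻¹) :=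
          mul_le_mul (ac_le n) h2 (Real.exp_nonneg _) h0.le
      _ = bd R n := by
          unfold bd
          field_simp

lemma summable_term (u : ℝ) : Summable fun n : ℕ => ac n * Real.exp (-(u - Real.log n) ^ 2) :=
  Summable.of_nonneg_of_le (fun n => mul_nonneg (ac_nonneg n) (Real.exp_nonneg _))
    (fun n => term_le le_rfl n) (summable_bd u)

lemma part_le (s : Finset ℕ) (u : ℝ) :
    ∑ n ∈ s, ac n * Real.exp (-(u - Real.log n) ^ 2) ≤ Vp u :=
  (summable_term u).sum_le_tsum s (fun n _ => mul_nonneg (ac_nonneg n) (Real.exp_nonneg _))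

/-! ### Gaussian integrals -/

/-- cosine transform of the Gaussian -/
def cg (h : ℝ) : ℝ := ∫ w : ℝ, Real.exp (-w ^ 2) * Real.cos (h * w)

lemma int_gauss : Integrable (fun w : ℝ => Real.exp (-w ^ 2)) := by
  have := integrable_exp_neg_mul_sq (b := 1) one_pos
  simpa using this

lemma int_gauss_half : Integrable (fun w : ℝ => Real.exp (-(w ^ 2 / 2))) := by
  have := integrable_exp_neg_mul_sq (b := 1 / 2) (by norm_num)
  refine this.congr (ae_of_all _ fun w => ?_)
  simp only
  congr 1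
  ring

lemma gauss_val : ∫ w : ℝ, Real.exp (-w ^ 2) = Real.sqrt Real.pi := by
  have := integral_gaussian 1
  simpa using this

lemma gauss_shift (v : ℝ) : ∫ u : ℝ, Real.exp (-(u - v) ^ 2) = Real.sqrt Real.pi := by
  rw [← gauss_val]
  exact integral_sub_right_eq_self (fun w => Real.exp (-w ^ 2)) v

lemma int_gauss_shift (v : ℝ) : Integrable (fun u : ℝ => Real.exp (-(u - v) ^ 2)) :=
  int_gauss.comp_sub_right v

/-- constant dominating the moments -/
def kk : ℝ := Real.exp (9 / 2) * ∫ w : ℝ, Real.exp (-(w ^ 2 / 2))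

lemma kk_nonneg : 0 ≤ kk :=
  mul_nonneg (Real.exp_nonneg _) (integral_nonneg fun _ => Real.exp_nonneg _)

lemma mom_le (w : ℝ) : (1 + |w|) ^ 3 * Real.exp (-w ^ 2) ≤
    Real.exp (9 / 2) * Real.exp (-(w ^ 2 / 2)) := by
  have h1 : 1 + |w| ≤ Real.exp |w| := by linarith [Real.add_one_le_exp |w|]
  have h2 : (1 + |w|) ^ 3 ≤ Real.exp (3 * |w|) := by
    calc (1 + |w|) ^ 3 ≤ Real.exp |w| ^ 3 := by
          gcongr
      _ = Real.exp (3 * |w|) := by
          rw [← Real.exp_nat_mul]
          norm_num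
  calc (1 + |w|) ^ 3 * Real.exp (-w ^ 2) ≤ Real.exp (3 * |w|) * Real.exp (-w ^ 2) := by
        gcongr
    _ = Real.exp (3 * |w| + -w ^ 2) := by rw [Real.exp_add]
    _ ≤ Real.exp (9 / 2 + -(w ^ 2 / 2)) := by
        apply Real.exp_le_exp.2
        nlinarith [sq_nonneg (|w| - 3), sq_abs w]
    _ = _ := by rw [Real.exp_add]

lemma mom_int : Integrable (fun w : ℝ => Real.exp (9 / 2) * Real.exp (-(w ^ 2 / 2))) :=
  int_gauss_half.const_mul _

/-- domination of set integrals -/
lemma set_int_le {f : ℝ → ℝ} {s : Set ℝ} (hs : MeasurableSet s) (v K : ℝ) (hK : 0 ≤ K)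
    (hf : ∀ u ∈ s, |f u| ≤ K * ((1 + |u - v|) ^ 3 * Real.exp (-(u - v) ^ 2))) :
    |∫ u in s, f u| ≤ K * kk := by
  have hI : Integrable (fun u : ℝ => K * (Real.exp (9 / 2) * Real.exp (-((u - v) ^ 2 / 2)))) :=
    (mom_int.comp_sub_right v).const_mul K
  have h1 : ‖∫ u in s, f u‖ ≤
      ∫ u in s, K * (Real.exp (9 / 2) * Real.exp (-((u - v) ^ 2 / 2))) := by
    refine norm_integral_le_of_norm_le hI.integrableOn ?_
    refine (ae_restrict_iff' hs).2 (ae_of_all _ fun u hu => ?_)
    rw [Real.norm_eq_abs]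
    exact (hf u hu).trans (mul_le_mul_of_nonneg_left (mom_le (u - v)) hK)
  have h2 : ∫ u in s, K * (Real.exp (9 / 2) * Real.exp (-((u - v) ^ 2 / 2))) ≤
      ∫ u : ℝ, K * (Real.exp (9 / 2) * Real.exp (-((u - v) ^ 2 / 2))) :=
    setIntegral_le_integral hI (ae_of_all _ fun u => by
      simp only [Pi.zero_apply]
      positivity)
  have h3 : ∫ u : ℝ, K * (Real.exp (9 / 2) * Real.exp (-((u - v) ^ 2 / 2))) = K * kk := by
    rw [integral_const_mul, integral_const_mul]
    congr 2
    exact integral_sub_right_eq_self (fun w => Real.exp (-(w ^ 2 / 2))) v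
  rw [← Real.norm_eq_abs]
  linarith

lemma int_gauss_mul {g : ℝ → ℝ} (hg : Continuous g) (hb : ∀ w, |g w| ≤ 1) (v : ℝ) :
    Integrable (fun u : ℝ => Real.exp (-(u - v) ^ 2) * g u) := by
  refine (int_gauss_shift v).mono' (by fun_prop) (ae_of_all _ fun u => ?_)
  rw [Real.norm_eq_abs, abs_mul, abs_of_nonneg (Real.exp_nonneg _)]
  calc Real.exp (-(u - v) ^ 2) * |g u| ≤ Real.exp (-(u - v) ^ 2) * 1 := by
        gcongr
        exact hb u
    _ = _ := mul_one _

/-- the transform of a shifted Gaussian -/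
lemma cos_shift (h v : ℝ) :
    ∫ u : ℝ, Real.exp (-(u - v) ^ 2) * Real.cos (u * h) = cg h * Real.cos (v * h) := by
  have h1 : ∫ u : ℝ, Real.exp (-(u - v) ^ 2) * Real.cos (u * h) =
      ∫ w : ℝ, Real.exp (-w ^ 2) * Real.cos ((w + v) * h) := by
    rw [← integral_sub_right_eq_self (fun w => Real.exp (-w ^ 2) * Real.cos ((w + v) * h)) v]
    congr 1
    ext u
    rw [sub_add_cancel]
  have hc : Integrable (fun w : ℝ => Real.exp (-w ^ 2) * Real.cos (h * w)) := by
    have := int_gauss_mul (g := fun w => Real.cos (h * w)) (by fun_prop)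
      (fun w => Real.abs_cos_le_one _) 0
    simpa using this
  have hsn : Integrable (fun w : ℝ => Real.exp (-w ^ 2) * Real.sin (h * w)) := by
    have := int_gauss_mul (g := fun w => Real.sin (h * w)) (by fun_prop)
      (fun w => Real.abs_sin_le_one _) 0
    simpa using this
  have h0 : ∫ w : ℝ, Real.exp (-w ^ 2) * Real.sin (h * w) = 0 := by
    have := integral_neg_eq_self (fun w : ℝ => Real.exp (-w ^ 2) * Real.sin (h * w)) volume
    have h2 : ∫ w : ℝ, Real.exp (-(-w) ^ 2) * Real.sin (h * -w) =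
        -∫ w : ℝ, Real.exp (-w ^ 2) * Real.sin (h * w) := by
      rw [← integral_neg]
      congr 1
      ext w
      rw [neg_sq, mul_neg, Real.sin_neg, mul_neg]
    linarith
  rw [h1]
  have h2 : ∀ w : ℝ, Real.exp (-w ^ 2) * Real.cos ((w + v) * h) =
      Real.cos (v * h) * (Real.exp (-w ^ 2) * Real.cos (h * w)) -
        Real.sin (v * h) * (Real.exp (-w ^ 2) * Real.sin (h * w)) := by
    intro w
    rw [show (w + v) * h = h * w + v * h by ring, Real.cos_add]
    ring
  simp_rw [h2]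
  rw [integral_sub (hc.const_mul _) (hsn.const_mul _), integral_const_mul, integral_const_mul, h0]
  unfold cg
  ring

lemma cg_le (h : ℝ) : |cg h| ≤ Real.sqrt Real.pi := by
  unfold cg
  rw [← gauss_val, ← Real.norm_eq_abs]
  refine norm_integral_le_of_norm_le int_gauss (ae_of_all _ fun w => ?_)
  rw [Real.norm_eq_abs, abs_mul, abs_of_nonneg (Real.exp_nonneg _)]
  calc Real.exp (-w ^ 2) * |Real.cos (h * w)| ≤ Real.exp (-w ^ 2) * 1 := by
        gcongr
        exact Real.abs_cos_le_one _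
    _ = _ := mul_one _

lemma cg_near (h : ℝ) : |cg h - Real.sqrt Real.pi| ≤ h ^ 2 * kk := by
  have hc : Integrable (fun w : ℝ => Real.exp (-w ^ 2) * Real.cos (h * w)) := by
    have := int_gauss_mul (g := fun w => Real.cos (h * w)) (by fun_prop)
      (fun w => Real.abs_cos_le_one _) 0
    simpa using this
  have h1 : cg h - Real.sqrt Real.pi =
      ∫ w in (univ : Set ℝ), (Real.exp (-w ^ 2) * Real.cos (h * w) - Real.exp (-w ^ 2)) := by
    rw [← gauss_val]
    unfold cg
    rw [setIntegral_univ, integral_sub hc int_gauss]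
  rw [h1]
  refine set_int_le MeasurableSet.univ 0 (h ^ 2) (sq_nonneg h) fun w _ => ?_
  have h2 : Real.exp (-w ^ 2) * Real.cos (h * w) - Real.exp (-w ^ 2) =
      -(Real.exp (-w ^ 2) * (1 - Real.cos (h * w))) := by ring
  have h3 : 1 - Real.cos (h * w) ≤ (h * w) ^ 2 / 2 := by
    linarith [Real.one_sub_sq_div_two_le_cos (x := h * w)]
  have h4 : 0 ≤ 1 - Real.cos (h * w) := by linarith [Real.cos_le_one (h * w)]
  rw [h2, abs_neg, abs_of_nonneg (mul_nonneg (Real.exp_nonneg _) h4), sub_zero]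
  have h5 : (h * w) ^ 2 / 2 ≤ h ^ 2 * (1 + |w|) ^ 3 := by
    have : w ^ 2 ≤ (1 + |w|) ^ 3 := by
      rw [← sq_abs w]
      nlinarith [abs_nonneg w, sq_nonneg |w|, pow_nonneg (abs_nonneg w) 3]
    nlinarith [sq_nonneg h]
  calc Real.exp (-w ^ 2) * (1 - Real.cos (h * w)) ≤
        Real.exp (-w ^ 2) * (h ^ 2 * (1 + |w|) ^ 3) := by
        gcongr
        linarith
    _ = _ := by ring

/-! ### Estimates of one term -/

/-- the integral of one term -/
def J (U h v : ℝ) : ℝ := ∫ u in (1 : ℝ)..U, Real.exp (-(u - v) ^ 2) * Real.cos (u * h) / u ^ 2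

/-- its main term -/
def Mn (U h v : ℝ) : ℝ := if 1 ≤ v ∧ v ≤ U then cg h * Real.cos (v * h) / v ^ 2 else 0

/-- its error term -/
def Bf (U v : ℝ) : ℝ := (if 1 ≤ v then 1 / v ^ 3 else 0) + Real.exp (-(1 - v) ^ 2) +
  (1 + |U - v|) / U * Real.exp (-(U - v) ^ 2)

lemma exp_split {a b c : ℝ} (h : (a - b) * (b - c) ≥ 0) :
    Real.exp (-(a - c) ^ 2) ≤ Real.exp (-(b - c) ^ 2) * Real.exp (-(a - b) ^ 2) := by
  rw [← Real.exp_add]
  apply Real.exp_le_exp.2
  nlinarith

lemma one_le_mom (w : ℝ) : 1 ≤ (1 + |w|) ^ 3 := by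
  have := abs_nonneg w
  exact one_le_pow₀ (by linarith)

lemma lin_le_mom (w : ℝ) : 1 + |w| ≤ (1 + |w|) ^ 3 := by
  have := abs_nonneg w
  exact le_self_pow₀ (by linarith) (by norm_num)

lemma quot_le {U u : ℝ} (hu : 1 ≤ u) (hU : 0 < U) : 1 / u ^ 2 ≤ (1 + |U - u|) / U := by
  rw [div_le_div_iff₀ (by positivity) hU]
  have h1 : U ≤ u + |U - u| := by linarith [le_abs_self (U - u)]
  have h2 := abs_nonneg (U - u)
  nlinarith [mul_nonneg h2 (by linarith : (0 : ℝ) ≤ u - 1), mul_nonneg h2 (by nlinarith : (0 : ℝ) ≤ u ^ 2 - 1)]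

lemma term_small {U h v : ℝ} (hU : 1 ≤ U) (hv : v < 1) :
    |J U h v| ≤ Real.exp (-(1 - v) ^ 2) * kk := by
  unfold J
  rw [intervalIntegral.integral_of_le hU]
  refine set_int_le measurableSet_Ioc 1 _ (Real.exp_nonneg _) fun u hu => ?_
  have hu1 : 1 < u := hu.1
  have h1 : Real.exp (-(u - v) ^ 2) ≤ Real.exp (-(1 - v) ^ 2) * Real.exp (-(u - 1) ^ 2) :=
    exp_split (by nlinarith)
  have h2 : |Real.cos (u * h) / u ^ 2| ≤ 1 := by
    rw [abs_div, abs_of_nonneg (by positivity : 0 ≤ u ^ 2)]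
    rw [div_le_one (by positivity)]
    exact (Real.abs_cos_le_one _).trans (one_le_pow₀ hu1.le)
  rw [mul_div_assoc, abs_mul, abs_of_nonneg (Real.exp_nonneg _)]
  calc Real.exp (-(u - v) ^ 2) * |Real.cos (u * h) / u ^ 2|
      ≤ (Real.exp (-(1 - v) ^ 2) * Real.exp (-(u - 1) ^ 2)) * 1 :=
        mul_le_mul h1 h2 (abs_nonneg _) (by positivity)
    _ = Real.exp (-(1 - v) ^ 2) * (1 * Real.exp (-(u - 1) ^ 2)) := by ring
    _ ≤ _ := by
        gcongr
        exact one_le_mom _

lemma term_large {U h v : ℝ} (hU : 1 ≤ U) (hv : U < v) :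
    |J U h v| ≤ Real.exp (-(U - v) ^ 2) / U * kk := by
  unfold J
  have hU0 : 0 < U := by linarith
  rw [intervalIntegral.integral_of_le hU]
  refine set_int_le measurableSet_Ioc U _ (by positivity) fun u hu => ?_
  have hu1 : 1 < u := hu.1
  have hu2 : u ≤ U := hu.2
  have h1 : Real.exp (-(u - v) ^ 2) ≤ Real.exp (-(U - v) ^ 2) * Real.exp (-(u - U) ^ 2) :=
    exp_split (by nlinarith)
  have h2 : |Real.cos (u * h) / u ^ 2| ≤ (1 + |u - U|) / U := by
    rw [abs_div, abs_of_nonneg (by positivity : 0 ≤ u ^ 2), abs_sub_comm u U]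
    refine (div_le_div_of_nonneg_right (Real.abs_cos_le_one _) (by positivity)).trans ?_
    exact quot_le hu1.le hU0
  rw [mul_div_assoc, abs_mul, abs_of_nonneg (Real.exp_nonneg _)]
  calc Real.exp (-(u - v) ^ 2) * |Real.cos (u * h) / u ^ 2|
      ≤ (Real.exp (-(U - v) ^ 2) * Real.exp (-(u - U) ^ 2)) * ((1 + |u - U|) / U) :=
        mul_le_mul h1 h2 (abs_nonneg _) (by positivity)
    _ = Real.exp (-(U - v) ^ 2) / U * ((1 + |u - U|) * Real.exp (-(u - U) ^ 2)) := by ring
    _ ≤ _ := by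
        gcongr
        exact lin_le_mom _

lemma diff_sq {u v : ℝ} (hu : 1 ≤ u) (hv : 1 ≤ v) :
    |1 / u ^ 2 - 1 / v ^ 2| ≤ 2 / v ^ 3 * (1 + |u - v|) ^ 3 := by
  have hu0 : 0 < u := by linarith
  have hv0 : 0 < v := by linarith
  have e1 : 1 / u ^ 2 - 1 / v ^ 2 = ((v - u) * (v + u)) / (u ^ 2 * v ^ 2) := by
    field_simp
    ring
  rw [e1, abs_div, abs_of_pos (by positivity : 0 < u ^ 2 * v ^ 2), abs_mul,
    abs_of_pos (by linarith : 0 < v + u), abs_sub_comm v u]
  set t := 1 + |u - v| with ht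
  have ht1 : |u - v| = t - 1 := by rw [ht]; ring
  have ht0 : 1 ≤ t := by rw [ht]; linarith [abs_nonneg (u - v)]
  have h1 : v ≤ u * t := by
    have : v - u ≤ |u - v| := by rw [abs_sub_comm]; exact le_abs_self _
    nlinarith
  rw [ht1, div_mul_eq_mul_div, div_le_div_iff₀ (by positivity) (by positivity)]
  have h2 : v + u ≤ 2 * (u * t) := by nlinarith
  have h3 : (t - 1) * (v + u) * v ≤ t * (2 * (u * t)) * (u * t) := by
    have : 0 ≤ t - 1 := by linarith
    apply mul_le_mul _ h1 hv0.le (by positivity)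
    exact mul_le_mul (by linarith) h2 (by linarith) (by linarith)
  calc (t - 1) * (v + u) * v ^ 3 = ((t - 1) * (v + u) * v) * v ^ 2 := by ring
    _ ≤ (t * (2 * (u * t)) * (u * t)) * v ^ 2 := by gcongr
    _ = 2 * t ^ 3 * (u ^ 2 * v ^ 2) := by ring

lemma term_mid {U h v : ℝ} (hU : 1 ≤ U) (hv : 1 ≤ v) (hvU : v ≤ U) :
    |J U h v - cg h * Real.cos (v * h) / v ^ 2| ≤ 2 * kk * Bf U v := by
  have hU0 : 0 < U := by linarith
  have hv0 : 0 < v := by linarith
  have hE : Integrable (fun u : ℝ => Real.exp (-(u - v) ^ 2) * Real.cos (u * h)) :=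
    int_gauss_mul (by fun_prop) (fun w => Real.abs_cos_le_one _) v
  have hsplit : cg h * Real.cos (v * h) =
      (∫ u in Iic 1, Real.exp (-(u - v) ^ 2) * Real.cos (u * h)) +
      (∫ u in Ioc 1 U, Real.exp (-(u - v) ^ 2) * Real.cos (u * h)) +
      ∫ u in Ioi U, Real.exp (-(u - v) ^ 2) * Real.cos (u * h) := by
    rw [← cos_shift, ← setIntegral_union (by
        rw [Set.disjoint_left]
        intro x hx hx'
        exact absurd hx'.1 (not_lt.2 hx)) measurableSet_Ioc hE.integrableOn hE.integrableOn,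
      Iic_union_Ioc_eq_Iic hU, ← setIntegral_union (by
        rw [Set.disjoint_left]
        intro x hx hx'
        exact (not_lt.2 (show x ≤ U from hx)) (show U < x from hx')) measurableSet_Ioi hE.integrableOn hE.integrableOn,
      Iic_union_Ioi, setIntegral_univ]
  have h1 : |∫ u in Iic 1, Real.exp (-(u - v) ^ 2) * Real.cos (u * h)| ≤
      Real.exp (-(1 - v) ^ 2) * kk := by
    refine set_int_le measurableSet_Iic 1 _ (Real.exp_nonneg _) fun u hu => ?_
    have hu1 : u ≤ 1 := hu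
    have h1 : Real.exp (-(u - v) ^ 2) ≤ Real.exp (-(1 - v) ^ 2) * Real.exp (-(u - 1) ^ 2) :=
      exp_split (by nlinarith)
    rw [abs_mul, abs_of_nonneg (Real.exp_nonneg _)]
    calc Real.exp (-(u - v) ^ 2) * |Real.cos (u * h)|
        ≤ (Real.exp (-(1 - v) ^ 2) * Real.exp (-(u - 1) ^ 2)) * 1 :=
          mul_le_mul h1 (Real.abs_cos_le_one _) (abs_nonneg _) (by positivity)
      _ = Real.exp (-(1 - v) ^ 2) * (1 * Real.exp (-(u - 1) ^ 2)) := by ring
      _ ≤ _ := by
          gcongr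
          exact one_le_mom _
  have h2 : |∫ u in Ioi U, Real.exp (-(u - v) ^ 2) * Real.cos (u * h)| ≤
      Real.exp (-(U - v) ^ 2) * kk := by
    refine set_int_le measurableSet_Ioi U _ (Real.exp_nonneg _) fun u hu => ?_
    have hu1 : U < u := hu
    have h1 : Real.exp (-(u - v) ^ 2) ≤ Real.exp (-(U - v) ^ 2) * Real.exp (-(u - U) ^ 2) :=
      exp_split (by nlinarith)
    rw [abs_mul, abs_of_nonneg (Real.exp_nonneg _)]
    calc Real.exp (-(u - v) ^ 2) * |Real.cos (u * h)|
        ≤ (Real.exp (-(U - v) ^ 2) * Real.exp (-(u - U) ^ 2)) * 1 :=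
          mul_le_mul h1 (Real.abs_cos_le_one _) (abs_nonneg _) (by positivity)
      _ = Real.exp (-(U - v) ^ 2) * (1 * Real.exp (-(u - U) ^ 2)) := by ring
      _ ≤ _ := by
          gcongr
          exact one_le_mom _
  have h3 : |(∫ u in Ioc 1 U, Real.exp (-(u - v) ^ 2) * Real.cos (u * h) / u ^ 2) -
      (∫ u in Ioc 1 U, Real.exp (-(u - v) ^ 2) * Real.cos (u * h)) / v ^ 2| ≤ 2 / v ^ 3 * kk := by
    have hi : IntegrableOn (fun u : ℝ => Real.exp (-(u - v) ^ 2) * Real.cos (u * h) / u ^ 2)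
        (Ioc 1 U) := by
      have hco : ContinuousOn (fun u : ℝ => Real.exp (-(u - v) ^ 2) * Real.cos (u * h) / u ^ 2)
          (Icc 1 U) := by
        refine ContinuousOn.div (by fun_prop) (by fun_prop) fun u hu => ?_
        have : 1 ≤ u := hu.1
        positivity
      exact (hco.integrableOn_Icc).mono_set Ioc_subset_Icc_self
    rw [← integral_div, ← integral_sub hi (hE.integrableOn.div_const _)]
    refine set_int_le measurableSet_Ioc v _ (by positivity) fun u hu => ?_
    have hu1 : 1 < u := hu.1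
    have e1 : Real.exp (-(u - v) ^ 2) * Real.cos (u * h) / u ^ 2 -
        Real.exp (-(u - v) ^ 2) * Real.cos (u * h) / v ^ 2 =
        Real.exp (-(u - v) ^ 2) * Real.cos (u * h) * (1 / u ^ 2 - 1 / v ^ 2) := by ring
    rw [e1, abs_mul, abs_mul, abs_of_nonneg (Real.exp_nonneg _)]
    calc Real.exp (-(u - v) ^ 2) * |Real.cos (u * h)| * |1 / u ^ 2 - 1 / v ^ 2|
        ≤ Real.exp (-(u - v) ^ 2) * 1 * (2 / v ^ 3 * (1 + |u - v|) ^ 3) := by
          gcongr
          · exact Real.abs_cos_le_one _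
          · exact diff_sq hu1.le hv
      _ = _ := by ring
  have hJ : J U h v = ∫ u in Ioc 1 U, Real.exp (-(u - v) ^ 2) * Real.cos (u * h) / u ^ 2 := by
    unfold J
    rw [intervalIntegral.integral_of_le hU]
  rw [hJ, hsplit]
  set A := ∫ u in Iic 1, Real.exp (-(u - v) ^ 2) * Real.cos (u * h)
  set B := ∫ u in Ioc 1 U, Real.exp (-(u - v) ^ 2) * Real.cos (u * h)
  set D := ∫ u in Ioi U, Real.exp (-(u - v) ^ 2) * Real.cos (u * h)
  set E := ∫ u in Ioc 1 U, Real.exp (-(u - v) ^ 2) * Real.cos (u * h) / u ^ 2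
  have e2 : E - (A + B + D) / v ^ 2 = (E - B / v ^ 2) + (-(A / v ^ 2)) + (-(D / v ^ 2)) := by ring
  rw [e2]
  have hk := kk_nonneg
  have h4 : |A / v ^ 2| ≤ Real.exp (-(1 - v) ^ 2) * kk := by
    rw [abs_div, abs_of_pos (by positivity : 0 < v ^ 2)]
    exact (div_le_self (abs_nonneg _) (one_le_pow₀ hv)).trans h1
  have h5 : |D / v ^ 2| ≤ (1 + |U - v|) / U * Real.exp (-(U - v) ^ 2) * kk := by
    rw [abs_div, abs_of_pos (by positivity : 0 < v ^ 2)]
    calc |D| / v ^ 2 = |D| * (1 / v ^ 2) := by ring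
      _ ≤ (Real.exp (-(U - v) ^ 2) * kk) * ((1 + |U - v|) / U) :=
          mul_le_mul h2 (quot_le hv hU0) (by positivity) (by positivity)
      _ = _ := by ring
  have h6 : 0 ≤ (1 + |U - v|) / U * Real.exp (-(U - v) ^ 2) := by positivity
  have h7 := Real.exp_nonneg (-(1 - v) ^ 2)
  unfold Bf
  rw [if_pos hv]
  calc |E - B / v ^ 2 + -(A / v ^ 2) + -(D / v ^ 2)|
      ≤ |E - B / v ^ 2| + |-(A / v ^ 2)| + |-(D / v ^ 2)| := abs_add_three _ _ _
    _ ≤ 2 / v ^ 3 * kk + Real.exp (-(1 - v) ^ 2) * kk +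
        (1 + |U - v|) / U * Real.exp (-(U - v) ^ 2) * kk := by
        rw [abs_neg, abs_neg]
        linarith
    _ = 2 * kk * (1 / v ^ 3) + kk * Real.exp (-(1 - v) ^ 2) +
        kk * ((1 + |U - v|) / U * Real.exp (-(U - v) ^ 2)) := by ring
    _ ≤ _ := by
        have := mul_nonneg hk h6
        have := mul_nonneg hk h7
        nlinarith

lemma term_all {U h v : ℝ} (hU : 1 ≤ U) : |J U h v - Mn U h v| ≤ 2 * kk * Bf U v := by
  have hU0 : 0 < U := by linarith
  have hk := kk_nonneg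
  have h6 : 0 ≤ (1 + |U - v|) / U * Real.exp (-(U - v) ^ 2) := by positivity
  have h7 := Real.exp_nonneg (-(1 - v) ^ 2)
  have h8 : 0 ≤ (if 1 ≤ v then 1 / v ^ 3 else 0 : ℝ) := by
    split_ifs with hv
    · positivity
    · exact le_rfl
  unfold Mn
  by_cases hv : 1 ≤ v
  · by_cases hvU : v ≤ U
    · rw [if_pos ⟨hv, hvU⟩]
      exact term_mid hU hv hvU
    · rw [if_neg (fun h => hvU h.2), sub_zero]
      refine (term_large hU (not_le.1 hvU)).trans ?_
      have h9 : Real.exp (-(U - v) ^ 2) / U ≤ (1 + |U - v|) / U * Real.exp (-(U - v) ^ 2) := by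
        rw [div_mul_eq_mul_div]
        gcongr
        have := abs_nonneg (U - v)
        nlinarith [Real.exp_nonneg (-(U - v) ^ 2)]
      unfold Bf
      nlinarith [mul_le_mul_of_nonneg_right h9 hk, mul_nonneg hk h6, mul_nonneg hk h7,
        mul_nonneg hk h8]
  · rw [if_neg (fun h => hv h.1), sub_zero]
    refine (term_small hU (not_le.1 hv)).trans ?_
    unfold Bf
    nlinarith [mul_nonneg hk h6, mul_nonneg hk h7, mul_nonneg hk h8]

/-! ### Sums of the error terms -/

lemma lin_exp (w : ℝ) : (1 + |w|) * Real.exp (-w ^ 2) ≤ Real.exp (-w ^ 2) +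
    1 / 2 * Real.exp (-(w - 1) ^ 2) + 1 / 2 * Real.exp (-(w + 1) ^ 2) := by
  have e1 : Real.exp (-(w - 1) ^ 2) = Real.exp (-w ^ 2) * Real.exp (2 * w - 1) := by
    rw [← Real.exp_add]
    congr 1
    ring
  have e2 : Real.exp (-(w + 1) ^ 2) = Real.exp (-w ^ 2) * Real.exp (-2 * w - 1) := by
    rw [← Real.exp_add]
    congr 1
    ring
  have h1 : 2 * w ≤ Real.exp (2 * w - 1) := by linarith [Real.add_one_le_exp (2 * w - 1)]
  have h2 : -2 * w ≤ Real.exp (-2 * w - 1) := by linarith [Real.add_one_le_exp (-2 * w - 1)]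
  have h3 := Real.exp_nonneg (2 * w - 1)
  have h4 := Real.exp_nonneg (-2 * w - 1)
  have h5 := Real.exp_nonneg (-w ^ 2)
  rw [e1, e2]
  have h6 : |w| ≤ 1 / 2 * Real.exp (2 * w - 1) + 1 / 2 * Real.exp (-2 * w - 1) := by
    rcases abs_cases w with h | h <;> rw [h.1] <;> linarith
  nlinarith

/-- the constant of the cubic sum -/
def zz : ℝ := ∑' k : ℕ, 1 / ((k : ℝ) ^ 2)

lemma cube_le {C : ℝ} (hC : 0 ≤ C) (hV : ∀ u, 0 ≤ u → Vp u ≤ C * (1 + u)) (s : Finset ℕ) :
    ∑ n ∈ s, ac n * (if 1 ≤ Real.log n then 1 / Real.log n ^ 3 else 0) ≤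
      Real.exp 1 * (2 * C * zz) := by
  set M : ℕ := ∑ n ∈ s, n with hM
  have hterm : ∀ n ∈ s, ac n * (if 1 ≤ Real.log n then 1 / Real.log n ^ 3 else 0) ≤
      ∑ k ∈ Finset.Icc 1 M, Real.exp 1 * (1 / (k : ℝ) ^ 3 *
        (ac n * Real.exp (-((k : ℝ) - Real.log n) ^ 2))) := by
    intro n hn
    have hnn : ∀ k ∈ Finset.Icc 1 M, 0 ≤ Real.exp 1 * (1 / (k : ℝ) ^ 3 *
        (ac n * Real.exp (-((k : ℝ) - Real.log n) ^ 2))) := fun k _ => by
      have := ac_nonneg n
      positivity
    split_ifs with hv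
    · have hn0 : 0 < n := by
        rcases Nat.eq_zero_or_pos n with h | h
        · subst h
          norm_num at hv
        · exact h
      have hlog : Real.log n ≤ n := by
        have := Real.log_le_sub_one_of_pos (by exact_mod_cast hn0 : (0 : ℝ) < n)
        linarith
      have hv0 : 0 ≤ Real.log n := by linarith
      set k := ⌊Real.log n⌋₊ with hk
      have hk1 : 1 ≤ k := Nat.le_floor (by exact_mod_cast hv)
      have hkl : (k : ℝ) ≤ Real.log n := Nat.floor_le hv0
      have hku : Real.log n < k + 1 := Nat.lt_floor_add_one _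
      have hkM : k ≤ M := by
        have h1 : k ≤ n := Nat.floor_le_of_le hlog
        have h2 : n ≤ M := Finset.single_le_sum (f := fun n : ℕ => n) (fun _ _ => Nat.zero_le _) hn
        omega
      refine le_trans ?_ (Finset.single_le_sum hnn (Finset.mem_Icc.2 ⟨hk1, hkM⟩))
      have hk0 : (0 : ℝ) < k := by exact_mod_cast hk1
      have h3 : 1 / Real.log n ^ 3 ≤ 1 / (k : ℝ) ^ 3 := by
        apply one_div_le_one_div_of_le (by positivity)
        gcongr
      have h4 : 1 ≤ Real.exp 1 * Real.exp (-((k : ℝ) - Real.log n) ^ 2) := by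
        rw [← Real.exp_add]
        apply Real.one_le_exp
        nlinarith
      have ha := ac_nonneg n
      calc ac n * (1 / Real.log n ^ 3) ≤ ac n * (1 / (k : ℝ) ^ 3) := by gcongr
        _ = (1 / (k : ℝ) ^ 3 * ac n) * 1 := by ring
        _ ≤ (1 / (k : ℝ) ^ 3 * ac n) * (Real.exp 1 * Real.exp (-((k : ℝ) - Real.log n) ^ 2)) := by
            gcongr
        _ = _ := by ring
    · rw [mul_zero]
      exact Finset.sum_nonneg hnn
  calc ∑ n ∈ s, ac n * (if 1 ≤ Real.log n then 1 / Real.log n ^ 3 else 0)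
      ≤ ∑ n ∈ s, ∑ k ∈ Finset.Icc 1 M, Real.exp 1 * (1 / (k : ℝ) ^ 3 *
        (ac n * Real.exp (-((k : ℝ) - Real.log n) ^ 2))) := Finset.sum_le_sum hterm
    _ = ∑ k ∈ Finset.Icc 1 M, Real.exp 1 * (1 / (k : ℝ) ^ 3 *
        ∑ n ∈ s, ac n * Real.exp (-((k : ℝ) - Real.log n) ^ 2)) := by
        rw [Finset.sum_comm]
        refine Finset.sum_congr rfl fun k _ => ?_
        rw [Finset.mul_sum, Finset.mul_sum]
    _ ≤ ∑ k ∈ Finset.Icc 1 M, Real.exp 1 * (2 * C * (1 / (k : ℝ) ^ 2)) := by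
        refine Finset.sum_le_sum fun k hk => ?_
        have hk1 : (1 : ℝ) ≤ k := by exact_mod_cast (Finset.mem_Icc.1 hk).1
        have h1 : ∑ n ∈ s, ac n * Real.exp (-((k : ℝ) - Real.log n) ^ 2) ≤ C * (1 + k) :=
          (part_le s k).trans (hV k (by linarith))
        have h2 : 1 / (k : ℝ) ^ 3 * (C * (1 + k)) ≤ 2 * C * (1 / (k : ℝ) ^ 2) := by
          rw [show 2 * C * (1 / (k : ℝ) ^ 2) = 1 / (k : ℝ) ^ 3 * (C * (2 * k)) by
            field_simp]
          gcongr
          linarith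
        have h3 : 1 / (k : ℝ) ^ 3 * ∑ n ∈ s, ac n * Real.exp (-((k : ℝ) - Real.log n) ^ 2) ≤
            1 / (k : ℝ) ^ 3 * (C * (1 + k)) := by
          gcongr
        exact mul_le_mul_of_nonneg_left (h3.trans h2) (Real.exp_nonneg _)
    _ = Real.exp 1 * (2 * C * ∑ k ∈ Finset.Icc 1 M, 1 / (k : ℝ) ^ 2) := by
        rw [Finset.mul_sum, Finset.mul_sum]
    _ ≤ _ := by
        have := (Real.summable_one_div_nat_pow.mpr (by norm_num : 1 < 2)).sum_le_tsum
          (Finset.Icc 1 M) (fun k _ => by positivity)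
        unfold zz
        gcongr

/-- total error constant -/
def ee (C : ℝ) : ℝ := Real.exp 1 * (2 * C * zz) + 6 * C

lemma err_sum {C : ℝ} (hC : 0 ≤ C) (hV : ∀ u, 0 ≤ u → Vp u ≤ C * (1 + u)) {U : ℝ} (hU : 1 ≤ U)
    (s : Finset ℕ) : ∑ n ∈ s, ac n * Bf U (Real.log n) ≤ ee C := by
  have hU0 : 0 < U := by linarith
  have h1 := cube_le hC hV s
  have h2 : ∑ n ∈ s, ac n * Real.exp (-(1 - Real.log n) ^ 2) ≤ C * (1 + 1) :=
    (part_le s 1).trans (hV 1 zero_le_one)
  have h3 : ∑ n ∈ s, ac n * ((1 + |U - Real.log n|) / U * Real.exp (-(U - Real.log n) ^ 2)) ≤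
      4 * C := by
    have ht : ∀ n ∈ s, ac n * ((1 + |U - Real.log n|) / U * Real.exp (-(U - Real.log n) ^ 2)) ≤
        1 / U * (ac n * Real.exp (-(U - Real.log n) ^ 2) +
          1 / 2 * (ac n * Real.exp (-(U - 1 - Real.log n) ^ 2)) +
          1 / 2 * (ac n * Real.exp (-(U + 1 - Real.log n) ^ 2))) := by
      intro n _
      have ha := ac_nonneg n
      have h := lin_exp (U - Real.log n)
      rw [show U - Real.log n - 1 = U - 1 - Real.log n by ring,
        show U - Real.log n + 1 = U + 1 - Real.log n by ring] at h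
      calc ac n * ((1 + |U - Real.log n|) / U * Real.exp (-(U - Real.log n) ^ 2))
          = (1 / U * ac n) * ((1 + |U - Real.log n|) * Real.exp (-(U - Real.log n) ^ 2)) := by ring
        _ ≤ (1 / U * ac n) * (Real.exp (-(U - Real.log n) ^ 2) +
            1 / 2 * Real.exp (-(U - 1 - Real.log n) ^ 2) +
            1 / 2 * Real.exp (-(U + 1 - Real.log n) ^ 2)) := by gcongr
        _ = _ := by ring
    refine (Finset.sum_le_sum ht).trans ?_
    rw [← Finset.mul_sum, Finset.sum_add_distrib, Finset.sum_add_distrib, ← Finset.mul_sum,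
      ← Finset.mul_sum]
    have a1 : ∑ n ∈ s, ac n * Real.exp (-(U - Real.log n) ^ 2) ≤ C * (1 + U) :=
      (part_le s U).trans (hV U hU0.le)
    have a2 : ∑ n ∈ s, ac n * Real.exp (-(U - 1 - Real.log n) ^ 2) ≤ C * (1 + (U - 1)) :=
      (part_le s (U - 1)).trans (hV (U - 1) (by linarith))
    have a3 : ∑ n ∈ s, ac n * Real.exp (-(U + 1 - Real.log n) ^ 2) ≤ C * (1 + (U + 1)) :=
      (part_le s (U + 1)).trans (hV (U + 1) (by linarith))
    rw [one_div, inv_mul_le_iff₀ hU0]
    nlinarith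
  have e : ∀ n ∈ s, ac n * Bf U (Real.log n) =
      ac n * (if 1 ≤ Real.log n then 1 / Real.log n ^ 3 else 0) +
      ac n * Real.exp (-(1 - Real.log n) ^ 2) +
      ac n * ((1 + |U - Real.log n|) / U * Real.exp (-(U - Real.log n) ^ 2)) := by
    intro n _
    unfold Bf
    ring
  rw [Finset.sum_congr rfl e, Finset.sum_add_distrib, Finset.sum_add_distrib]
  unfold ee
  linarith

/-- interchange of sum and integral -/
lemma interchange {U : ℝ} (hU : 1 ≤ U) (h : ℝ) :
    HasSum (fun n : ℕ => ac n * J U h (Real.log n))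
      (∫ u in (1 : ℝ)..U, Vp u * Real.cos (u * h) / u ^ 2) := by
  have key : HasSum (fun n : ℕ => ∫ u in (1 : ℝ)..U,
      ac n * (Real.exp (-(u - Real.log n) ^ 2) * Real.cos (u * h) / u ^ 2))
      (∫ u in (1 : ℝ)..U, Vp u * Real.cos (u * h) / u ^ 2) := by
    refine intervalIntegral.hasSum_integral_of_dominated_convergence (fun n _ => bd U n) ?_ ?_ ?_ ?_ ?_
    · intro n
      refine ContinuousOn.aestronglyMeasurable ?_ measurableSet_uIoc
      refine ContinuousOn.mul continuousOn_const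
        (ContinuousOn.div (by fun_prop) (by fun_prop) fun u hu => ?_)
      rw [uIoc_of_le hU] at hu
      have : 1 < u := hu.1
      positivity
    · intro n
      refine ae_of_all _ fun u hu => ?_
      rw [uIoc_of_le hU] at hu
      have hu1 : 1 < u := hu.1
      rw [Real.norm_eq_abs, abs_mul, abs_of_nonneg (ac_nonneg n), abs_div, abs_mul,
        abs_of_nonneg (Real.exp_nonneg _), abs_of_nonneg (by positivity : 0 ≤ u ^ 2)]
      refine le_trans ?_ (term_le (u := u) hu.2 n)
      refine mul_le_mul_of_nonneg_left ?_ (ac_nonneg n)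
      have h1 : Real.exp (-(u - Real.log n) ^ 2) * |Real.cos (u * h)| ≤
          Real.exp (-(u - Real.log n) ^ 2) :=
        mul_le_of_le_one_right (Real.exp_nonneg _) (Real.abs_cos_le_one _)
      exact (div_le_self (by positivity) (one_le_pow₀ hu1.le)).trans h1
    · exact ae_of_all _ fun u _ => summable_bd U
    · exact intervalIntegrable_const
    · refine ae_of_all _ fun u _ => ?_
      have h1 : HasSum (fun n : ℕ => ac n * Real.exp (-(u - Real.log n) ^ 2)) (Vp u) :=
        (summable_term u).hasSum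
      have h2 := (h1.mul_right (Real.cos (u * h) / u ^ 2))
      rw [← mul_div_assoc] at h2
      refine h2.congr_fun ?_
      intro n
      ring
  refine key.congr_fun ?_
  intro n
  unfold J
  rw [intervalIntegral.integral_const_mul]

/-- the integral is close to the sum of the main terms -/
lemma step_one {C : ℝ} (hC : 0 ≤ C) (hV : ∀ u, 0 ≤ u → Vp u ≤ C * (1 + u)) {U : ℝ} (hU : 1 ≤ U)
    (h : ℝ) : |(∫ u in (1 : ℝ)..U, Vp u * Real.cos (u * h) / u ^ 2) -
      ∑' n : ℕ, ac n * Mn U h (Real.log n)| ≤ 2 * kk * ee C := by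
  have hS := interchange hU h
  have hbd : ∀ s : Finset ℕ, ∑ n ∈ s, ‖ac n * J U h (Real.log n) - ac n * Mn U h (Real.log n)‖ ≤
      2 * kk * ee C := by
    intro s
    calc ∑ n ∈ s, ‖ac n * J U h (Real.log n) - ac n * Mn U h (Real.log n)‖
        ≤ ∑ n ∈ s, 2 * kk * (ac n * Bf U (Real.log n)) := by
          refine Finset.sum_le_sum fun n _ => ?_
          rw [← mul_sub, norm_mul, Real.norm_eq_abs, abs_of_nonneg (ac_nonneg n),
            Real.norm_eq_abs]
          calc ac n * |J U h (Real.log n) - Mn U h (Real.log n)| ≤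
                ac n * (2 * kk * Bf U (Real.log n)) := by
                have := ac_nonneg n
                gcongr
                exact term_all hU
            _ = _ := by ring
      _ = 2 * kk * ∑ n ∈ s, ac n * Bf U (Real.log n) := by rw [Finset.mul_sum]
      _ ≤ _ := by
          have := kk_nonneg
          gcongr
          exact err_sum hC hV hU s
  have hsum : Summable fun n : ℕ => ‖ac n * J U h (Real.log n) - ac n * Mn U h (Real.log n)‖ :=
    summable_of_sum_le (fun n => norm_nonneg _) hbd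
  have hs2 := hsum.of_norm
  have hM : Summable fun n : ℕ => ac n * Mn U h (Real.log n) := by
    have := hS.summable.sub hs2
    refine this.congr fun n => ?_
    ring
  rw [← hS.tsum_eq, ← hS.summable.tsum_sub hM, ← Real.norm_eq_abs]
  exact (norm_tsum_le_tsum_norm hsum).trans (hsum.tsum_le_of_sum_le hbd)

/-! ### The main terms and the primes -/

/-- the main coefficient -/
def Gf (h : ℝ) (n : ℕ) : ℝ :=
  if 1 ≤ Real.log n then ac n * Real.cos (Real.log n * h) / Real.log n ^ 2 else 0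

/-- the prime terms -/
def Pt (h : ℝ) (n : ℕ) : ℝ := if n.Prime then Real.cos (h * Real.log n) / n else 0

/-- non-prime majorant -/
def Np (n : ℕ) : ℝ := (if n.Prime then 0 else ArithmeticFunction.vonMangoldt n) / n

lemma summable_Np : Summable Np := by
  have := ArithmeticFunction.vonMangoldt.summable_residueClass_non_primes_div (q := 1) (a := 0)
  refine this.congr fun n => ?_
  unfold Np
  congr 2
  unfold ArithmeticFunction.vonMangoldt.residueClass
  rw [Set.indicator_of_mem]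
  exact Subsingleton.elim _ _

lemma Np_nonneg (n : ℕ) : 0 ≤ Np n := by
  unfold Np
  split_ifs
  · simp
  · exact div_nonneg ArithmeticFunction.vonMangoldt_nonneg (Nat.cast_nonneg n)

lemma main_eq {U h : ℝ} : ∑' n : ℕ, ac n * Mn U h (Real.log n) =
    cg h * ∑ n ∈ Finset.Icc 1 ⌊Real.exp U⌋₊, Gf h n := by
  rw [tsum_eq_sum (s := Finset.Icc 1 ⌊Real.exp U⌋₊), Finset.mul_sum]
  · refine Finset.sum_congr rfl fun n hn => ?_
    have hn1 : 1 ≤ n := (Finset.mem_Icc.1 hn).1
    have hn2 : (n : ℝ) ≤ Real.exp U := (Nat.le_floor_iff (Real.exp_nonneg U)).1 (Finset.mem_Icc.1 hn).2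
    have hn0 : (0 : ℝ) < n := by exact_mod_cast hn1
    have hlog : Real.log n ≤ U := (Real.log_le_iff_le_exp hn0).2 hn2
    unfold Mn Gf
    by_cases hv : 1 ≤ Real.log n
    · rw [if_pos ⟨hv, hlog⟩, if_pos hv]
      ring
    · rw [if_neg (fun h => hv h.1), if_neg hv]
      ring
  · intro n hn
    unfold Mn
    rw [if_neg, mul_zero]
    rintro ⟨h1, h2⟩
    apply hn
    have hn0 : 0 < n := by
      rcases Nat.eq_zero_or_pos n with h | h
      · subst h
        norm_num at h1
      · exact h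
    have hn0' : (0 : ℝ) < n := by exact_mod_cast hn0
    exact Finset.mem_Icc.2 ⟨hn0, Nat.le_floor ((Real.log_le_iff_le_exp hn0').1 h2)⟩

lemma diff_le (h : ℝ) (n : ℕ) : |Gf h n - Pt h n| ≤ (if n = 2 then 1 / 2 else 0) + Np n := by
  unfold Gf Pt Np
  rcases Nat.eq_zero_or_pos n with rfl | hn
  · norm_num
  have hn0 : (0 : ℝ) < n := by exact_mod_cast hn
  have hL0 : 0 ≤ ArithmeticFunction.vonMangoldt n := ArithmeticFunction.vonMangoldt_nonneg
  by_cases hp : n.Prime
  · rw [if_pos hp, if_pos hp, zero_div, add_zero]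
    by_cases hv : 1 ≤ Real.log n
    · rw [if_pos hv]
      have hv0 : 0 < Real.log n := by linarith
      have e1 : ac n * Real.cos (Real.log n * h) / Real.log n ^ 2 =
          Real.cos (h * Real.log n) / n := by
        unfold ac
        rw [ArithmeticFunction.vonMangoldt_apply_prime hp, mul_comm h]
        field_simp
      rw [e1, sub_self, abs_zero]
      split_ifs <;> norm_num
    · rw [if_neg hv]
      have h2 : n = 2 := by
        by_contra hne
        have h3 : 3 ≤ n := by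
          have := hp.two_le
          omega
        apply hv
        rw [Real.le_log_iff_exp_le hn0]
        have h4 : (3 : ℝ) ≤ n := by exact_mod_cast h3
        linarith [Real.exp_one_lt_d9]
      subst h2
      rw [if_pos rfl, zero_sub, abs_neg, abs_div]
      have := Real.abs_cos_le_one (h * Real.log (2 : ℕ))
      rw [abs_of_pos (by norm_num : (0 : ℝ) < (2 : ℕ))]
      push_cast at this ⊢
      linarith
  · rw [if_neg hp, if_neg hp, sub_zero]
    have h5 : 0 ≤ (if n = 2 then 1 / 2 else 0 : ℝ) := by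
      split_ifs <;> norm_num
    by_cases hv : 1 ≤ Real.log n
    · rw [if_pos hv, abs_div, abs_mul, abs_of_nonneg (ac_nonneg n),
        abs_of_nonneg (by positivity : 0 ≤ Real.log n ^ 2)]
      have hv0 : 0 < Real.log n := by linarith
      have hL : ArithmeticFunction.vonMangoldt n ≤ Real.log n :=
        ArithmeticFunction.vonMangoldt_le_log
      have h6 : ac n * |Real.cos (Real.log n * h)| / Real.log n ^ 2 ≤
          ArithmeticFunction.vonMangoldt n / n := by
        calc ac n * |Real.cos (Real.log n * h)| / Real.log n ^ 2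
            ≤ ac n * 1 / Real.log n ^ 2 := by
              have := ac_nonneg n
              gcongr
              exact Real.abs_cos_le_one _
          _ ≤ ArithmeticFunction.vonMangoldt n / n := by
              unfold ac
              rw [mul_one, div_div, div_le_div_iff₀ (by positivity) hn0]
              have h7 : ArithmeticFunction.vonMangoldt n ≤ Real.log n ^ 2 := by nlinarith
              calc (ArithmeticFunction.vonMangoldt n) ^ 2 * n =
                    ArithmeticFunction.vonMangoldt n * n * ArithmeticFunction.vonMangoldt n := by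
                    ring
                _ ≤ ArithmeticFunction.vonMangoldt n * n * Real.log n ^ 2 := by gcongr
                _ = _ := by ring
      linarith
    · rw [if_neg hv, abs_zero]
      positivity

lemma step_two (h : ℝ) (s : Finset ℕ) :
    |∑ n ∈ s, Gf h n - ∑ n ∈ s, Pt h n| ≤ 1 / 2 + ∑' n, Np n := by
  rw [← Finset.sum_sub_distrib]
  calc |∑ n ∈ s, (Gf h n - Pt h n)| ≤ ∑ n ∈ s, |Gf h n - Pt h n| :=
        Finset.abs_sum_le_sum_abs _ _
    _ ≤ ∑ n ∈ s, ((if n = 2 then 1 / 2 else 0) + Np n) :=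
        Finset.sum_le_sum fun n _ => diff_le h n
    _ = ∑ n ∈ s, (if n = 2 then 1 / 2 else 0 : ℝ) + ∑ n ∈ s, Np n := Finset.sum_add_distrib
    _ ≤ 1 / 2 + ∑' n, Np n := by
        apply add_le_add
        · rw [Finset.sum_ite_eq']
          split_ifs <;> norm_num
        · exact summable_Np.sum_le_tsum s (fun n _ => Np_nonneg n)

/-! ### Logarithms -/

lemma log_shift {U h : ℝ} (hU : 2 ≤ U) (hh : 0 ≤ h) :
    |Real.log (max (1 / (2 * U)) h) - Real.log (max (1 / U) h)| ≤ 1 := by
  have hU0 : 0 < U := by linarith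
  have p1 : 0 < max (1 / (2 * U)) h := lt_max_of_lt_left (by positivity)
  have p2 : 0 < max (1 / U) h := lt_max_of_lt_left (by positivity)
  have h1 : max (1 / (2 * U)) h ≤ max (1 / U) h := by
    apply max_le_max_right
    apply one_div_le_one_div_of_le hU0
    linarith
  have h2 : max (1 / U) h ≤ 2 * max (1 / (2 * U)) h := by
    apply max_le
    · calc 1 / U = 2 * (1 / (2 * U)) := by
            field_simp
        _ ≤ _ := by
            gcongr
            exact le_max_left _ _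
    · calc h ≤ 2 * h := by linarith
        _ ≤ _ := by
            gcongr
            exact le_max_right _ _
  have h3 := Real.log_le_log p1 h1
  have h4 := Real.log_le_log p2 h2
  rw [Real.log_mul (by norm_num) p1.ne'] at h4
  have h5 : Real.log 2 ≤ 1 := by linarith [Real.log_two_lt_d9]
  rw [abs_le]
  constructor <;> linarith

lemma sq_log {L h : ℝ} (hL : 4 ≤ L) (hh : 0 ≤ h) (hh1 : h ≤ 1) :
    h ^ 2 * |Real.log (max (1 / L) h)| ≤ 1 := by
  rcases hh.eq_or_lt with h0 | h0
  · rw [← h0]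
    norm_num
  have hL0 : 0 < L := by linarith
  have h1 : max (1 / L) h ≤ 1 := by
    apply max_le _ hh1
    rw [div_le_one hL0]
    linarith
  have h2 : Real.log (max (1 / L) h) ≤ 0 :=
    Real.log_nonpos (le_max_of_le_right hh) h1
  rw [abs_of_nonpos h2]
  have h3 : Real.log h ≤ Real.log (max (1 / L) h) := Real.log_le_log h0 (le_max_right _ _)
  have h4 : -Real.log h ≤ 1 / h := by
    have := Real.log_le_sub_one_of_pos (by positivity : 0 < 1 / h)
    rw [one_div, Real.log_inv] at this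
    rw [one_div]
    linarith
  calc h ^ 2 * -Real.log (max (1 / L) h) ≤ h ^ 2 * (1 / h) := by
        gcongr
        linarith
    _ = h := by
        field_simp
    _ ≤ 1 := hh1

/-- **Package VC.** -/
theorem t_VC : S_PR → S_PP → S_VC := by
  rintro ⟨C1, hC1, hPR⟩ ⟨C, T0, hC, -, -, -, -, hV, -⟩
  have hk := kk_nonneg
  have hM : 0 ≤ ∑' n, Np n := tsum_nonneg Np_nonneg
  have hz : 0 ≤ zz := tsum_nonneg fun k => by positivity
  have hee : 0 ≤ ee C := by
    unfold ee
    positivity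
  have hpi := Real.sqrt_nonneg Real.pi
  refine ⟨2 * kk * ee C + Real.sqrt Real.pi * (1 / 2 + ∑' n, Np n) + Real.sqrt Real.pi * C1 +
    Real.sqrt Real.pi + kk + 1, by positivity, fun L hL h hh hh1 => ?_⟩
  obtain ⟨U, rfl⟩ : ∃ U, L = 2 * U := ⟨L / 2, by ring⟩
  have hU : 2 ≤ U := by linarith
  rw [show 2 * U / 2 = U by ring]
  have s1 := step_one hC.le hV (by linarith : 1 ≤ U) h
  rw [main_eq] at s1
  have s2 := step_two h (Finset.Icc 1 ⌊Real.exp U⌋₊)
  have s3 := hPR (Real.exp U) (by linarith [Real.add_one_le_exp U]) h hh hh1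
  rw [Real.log_exp, Finset.sum_filter] at s3
  have s4 := log_shift hU hh
  have s5 := sq_log (L := 2 * U) hL hh hh1
  have s6 := cg_le h
  have s7 := cg_near h
  set I := ∫ u in (1 : ℝ)..U, Vp u * Real.cos (u * h) / u ^ 2
  set SG := ∑ n ∈ Finset.Icc 1 ⌊Real.exp U⌋₊, Gf h n
  have e0 : ∑ a ∈ Finset.Icc 1 ⌊Real.exp U⌋₊, (if Nat.Prime a then Real.cos (h * Real.log a) / a
      else 0) = ∑ n ∈ Finset.Icc 1 ⌊Real.exp U⌋₊, Pt h n := rfl
  rw [e0] at s3
  set SP := ∑ n ∈ Finset.Icc 1 ⌊Real.exp U⌋₊, Pt h n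
  set Lg := Real.log (max (1 / (2 * U)) h)
  set LU := Real.log (max (1 / U) h)
  have e1 : I + Real.sqrt Real.pi * Lg = (I - cg h * SG) + cg h * (SG - SP) + cg h * (SP + LU) +
      cg h * (Lg - LU) + (-(cg h - Real.sqrt Real.pi) * Lg) := by ring
  have b2 : |cg h * (SG - SP)| ≤ Real.sqrt Real.pi * (1 / 2 + ∑' n, Np n) := by
    rw [abs_mul]
    exact mul_le_mul s6 s2 (abs_nonneg _) hpi
  have b3 : |cg h * (SP + LU)| ≤ Real.sqrt Real.pi * C1 := by
    rw [abs_mul]
    exact mul_le_mul s6 s3 (abs_nonneg _) hpi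
  have b4 : |cg h * (Lg - LU)| ≤ Real.sqrt Real.pi * 1 := by
    rw [abs_mul]
    exact mul_le_mul s6 s4 (abs_nonneg _) hpi
  have b5 : |-(cg h - Real.sqrt Real.pi) * Lg| ≤ kk := by
    rw [abs_mul, abs_neg]
    calc |cg h - Real.sqrt Real.pi| * |Lg| ≤ (h ^ 2 * kk) * |Lg| := by gcongr
      _ = (h ^ 2 * |Lg|) * kk := by ring
      _ ≤ 1 * kk := by gcongr
      _ = kk := one_mul _
  rw [e1]
  have t1 := abs_add_le ((I - cg h * SG) + cg h * (SG - SP) + cg h * (SP + LU) +
      cg h * (Lg - LU)) (-(cg h - Real.sqrt Real.pi) * Lg)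
  have t2 := abs_add_le ((I - cg h * SG) + cg h * (SG - SP) + cg h * (SP + LU))
      (cg h * (Lg - LU))
  have t3 := abs_add_le ((I - cg h * SG) + cg h * (SG - SP)) (cg h * (SP + LU))
  have t4 := abs_add_le (I - cg h * SG) (cg h * (SG - SP))
  linarith

end

end Pool.Agent.U94.MV.VC
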